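import Pool.Agent.Lib.MP_acafa7_al.MS.Iface3

/-! Module QC (10.2): quasi-centre of a bounded orbit in a graph with the bottleneck property. -/

set_option linter.all false

namespace MSG

namespace H37

theorem dist_smul_le {W : Type} (H : SimpleGraph W) (hc : H.Connected) {Λ : Type} [Group Λ]
    [MulAction Λ W] (hg : ∀ (g : Λ) x y, H.Adj (g • x) (g • y) ↔ H.Adj x y) (g : Λ) (x y : W) :
    H.dist (g • x) (g • y) ≤ H.dist x y := by
  obtain ⟨p, hp⟩ := hc.exists_walk_length_eq_dist x y
  let φ : H →g H := ⟨fun z => g • z, fun {a b} h => (hg g a b).2 h⟩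
  have := SimpleGraph.dist_le (p.map φ)
  rw [SimpleGraph.Walk.length_map, hp] at this
  exact this

theorem dist_smul {W : Type} (H : SimpleGraph W) (hc : H.Connected) {Λ : Type} [Group Λ]
    [MulAction Λ W] (hg : ∀ (g : Λ) x y, H.Adj (g • x) (g • y) ↔ H.Adj x y) (g : Λ) (x y : W) :
    H.dist (g • x) (g • y) = H.dist x y := by
  apply le_antisymm (dist_smul_le H hc hg g x y)
  have := dist_smul_le H hc hg g⁻¹ (g • x) (g • y)
  simpa using this

theorem mid {W : Type} (H : SimpleGraph W) (hc : H.Connected) (x y : W) (k : ℕ)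
    (hk : k ≤ H.dist x y) : ∃ m, H.dist x m = k ∧ H.dist m y + k = H.dist x y := by
  induction k with
  | zero => exact ⟨x, by simp, by simp⟩
  | succ k ih =>
    obtain ⟨m, h1, h2⟩ := ih (by omega)
    obtain ⟨p, hp⟩ := hc.exists_walk_length_eq_dist m y
    cases p with
    | nil =>
      simp at hp
      simp at h2
      omega
    | @cons _ m' _ ha q =>
      have hq : H.dist m' y ≤ q.length := SimpleGraph.dist_le q
      rw [SimpleGraph.Walk.length_cons] at hp
      have h3 : H.dist m m' = 1 := SimpleGraph.dist_eq_one_iff_adj.2 ha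
      have t1 := hc.dist_triangle (u := m) (v := m') (w := y)
      have t2 := hc.dist_triangle (u := x) (v := m) (w := m')
      have t3 := hc.dist_triangle (u := x) (v := m') (w := y)
      exact ⟨m', by omega, by omega⟩

theorem split {W : Type} (H : SimpleGraph W) {x y z : W} (p : H.Walk x y) (hz : z ∈ p.support) :
    H.dist x z + H.dist z y ≤ p.length := by
  classical
  have h1 := SimpleGraph.dist_le (p.takeUntil z hz)
  have h2 := SimpleGraph.dist_le (p.dropUntil z hz)
  have h3 := congrArg SimpleGraph.Walk.length (p.take_spec hz)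
  rw [SimpleGraph.Walk.length_append] at h3
  omega

theorem qc : QCStatement := by
  classical
  intro W H hc Δ hB Λ _ _ hg x₀ R hR
  have ex : ∃ r : ℕ, ∃ c : W, ∀ g : Λ, H.dist c (g • x₀) ≤ r := ⟨R, x₀, hR⟩
  obtain ⟨c, hcr⟩ := Nat.find_spec ex
  have hmin := fun {m : ℕ} => Nat.find_min ex (m := m)
  set r := Nat.find ex with hr
  refine ⟨c, fun g => ?_⟩
  by_contra hlt
  push Not at hlt
  obtain ⟨m, hm1, hm2⟩ := mid H hc c (g • c) (H.dist c (g • c) / 2) (Nat.div_le_self _ _)
  have key : ∀ g' : Λ, H.dist m (g' • x₀) + 1 ≤ r := by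
    intro g'
    obtain ⟨p, hp⟩ := hc.exists_walk_length_eq_dist c (g' • x₀)
    obtain ⟨q, hq⟩ := hc.exists_walk_length_eq_dist (g' • x₀) (g • c)
    obtain ⟨z, hz, hzm⟩ := hB c (g • c) m (by omega) (p.append q)
    have hco := hcr g'
    have hco2 : H.dist (g' • x₀) (g • c) ≤ r := by
      have h1 := hcr (g⁻¹ * g')
      have h2 := dist_smul H hc hg g⁻¹ (g • c) (g' • x₀)
      rw [inv_smul_smul, ← mul_smul] at h2
      rw [SimpleGraph.dist_comm, ← h2]
      exact h1
    rw [SimpleGraph.Walk.mem_support_append_iff] at hz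
    rcases hz with hz | hz
    · have s := split H p hz
      have t1 := hc.dist_triangle (u := m) (v := z) (w := g' • x₀)
      have t2 := hc.dist_triangle (u := c) (v := z) (w := m)
      rw [SimpleGraph.dist_comm (u := z) (v := m)] at t2
      omega
    · have s := split H q hz
      have t1 := hc.dist_triangle (u := m) (v := z) (w := g' • x₀)
      rw [SimpleGraph.dist_comm (u := z) (v := g' • x₀)] at t1
      have t2 := hc.dist_triangle (u := m) (v := z) (w := g • c)
      omega
  have h0 := key 1
  exact hmin (m := r - 1) (by omega) ⟨m, fun g' => by have := key g'; omega⟩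

end H37

end MSG
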