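import Pool.Agent.Lib.MP_acafa7_al.MS.Iface3

/-! Module G2C (11.2): quotients by finite normal subgroups. -/

set_option linter.all false

namespace MSG

namespace H37

theorem finB_quot (S : Type) [Group S] (N : ℕ) (B : Subgroup S) [B.Normal]
    (hB : (B : Set S).Finite) (hF : FinB S N) : FinB (S ⧸ B) N := by
  intro F hFf
  have hfib : ∀ b ∈ (F : Set (S ⧸ B)), ((QuotientGroup.mk' B) ⁻¹' {b}).Finite := by
    intro b _
    obtain ⟨y, rfl⟩ := QuotientGroup.mk'_surjective B b
    refine (hB.image (fun z => y * z)).subset ?_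
    intro x hx
    have hx' : QuotientGroup.mk' B x = QuotientGroup.mk' B y := hx
    have : y⁻¹ * x ∈ B := QuotientGroup.eq.1 hx'.symm
    exact ⟨y⁻¹ * x, this, by simp⟩
  have h1 : ((F.comap (QuotientGroup.mk' B) : Subgroup S) : Set S).Finite := by
    rw [Subgroup.coe_comap]
    exact Set.Finite.preimage' hFf hfib
  have h2 := hF _ h1
  haveI : Finite (F.comap (QuotientGroup.mk' B) : Subgroup S) := h1.to_subtype
  refine le_trans ?_ h2
  apply Nat.card_le_card_of_surjective
    (fun x : (F.comap (QuotientGroup.mk' B) : Subgroup S) => (⟨QuotientGroup.mk' B x.1, x.2⟩ : F))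
  rintro ⟨z, hz⟩
  obtain ⟨y, rfl⟩ := QuotientGroup.mk'_surjective B z
  exact ⟨⟨y, hz⟩, rfl⟩

theorem centr (S : Type) [Group S] (B : Subgroup S) [B.Normal] (hB : (B : Set S).Finite) (c : S) :
    ∃ m : ℕ, 1 ≤ m ∧ ∀ b ∈ B, c ^ m * b = b * c ^ m := by
  haveI : Finite B := hB.to_subtype
  let f : ℕ → (B → B) := fun n b => ⟨c ^ n * b.1 * (c ^ n)⁻¹, Subgroup.Normal.conj_mem ‹_› _ b.2 _⟩
  obtain ⟨i, j, hij, he⟩ := Finite.exists_ne_map_eq_of_infinite f
  have aux : ∀ i j : ℕ, i < j → f i = f j →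
      ∃ m : ℕ, 1 ≤ m ∧ ∀ b ∈ B, c ^ m * b = b * c ^ m := by
    intro i j hlt he
    obtain ⟨m, rfl⟩ : ∃ m, j = i + m := ⟨j - i, by omega⟩
    refine ⟨m, by omega, ?_⟩
    intro b hb
    have h := congrArg Subtype.val (congrFun he ⟨b, hb⟩)
    simp only [f] at h
    rw [pow_add] at h
    have h3 : b = c ^ m * b * (c ^ m)⁻¹ := by
      have h4 : c ^ i * b * (c ^ i)⁻¹ = c ^ i * (c ^ m * b * (c ^ m)⁻¹) * (c ^ i)⁻¹ := by
        rw [h]; group
      have h5 := mul_right_cancel h4
      exact mul_left_cancel h5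
    calc c ^ m * b = (c ^ m * b * (c ^ m)⁻¹) * c ^ m := by group
      _ = b * c ^ m := by rw [← h3]
  rcases Nat.lt_or_gt_of_ne hij with h | h
  · exact aux i j h he
  · exact aux j i h he.symm

theorem cyc_quot (S : Type) [Group S] (B : Subgroup S) [B.Normal]
    (hB : (B : Set S).Finite) (hC : CycN S) : CycN (S ⧸ B) := by
  intro s' hs' K' hsK hK'
  obtain ⟨c, rfl⟩ := QuotientGroup.mk'_surjective B s'
  obtain ⟨m, hm1, hm⟩ := centr S B hB c
  haveI : Finite B := hB.to_subtype
  set M : ℕ := m * Nat.card B with hM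
  have hcard : 0 < Nat.card B := Nat.card_pos
  have hMpos : 0 < M := Nat.mul_pos (by omega) hcard
  have hinf : InfO (c ^ M) := by
    intro n hn
    have h1 := congrArg (QuotientGroup.mk' B) hn
    rw [map_zpow, map_pow, map_one, ← zpow_natCast, ← zpow_mul] at h1
    have h2 := hs' _ h1
    rcases mul_eq_zero.1 h2 with h | h
    · exfalso
      have : (M : ℤ) ≠ 0 := by exact_mod_cast hMpos.ne'
      exact this h
    · exact h
  have hcK : c ∈ K'.comap (QuotientGroup.mk' B) := hsK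
  have hnorm : ∀ x ∈ K'.comap (QuotientGroup.mk' B), x * c ^ M * x⁻¹ ∈ Subgroup.zpowers (c ^ M) := by
    intro x hx
    have h1 := hK' _ hx
    rw [Subgroup.mem_zpowers_iff] at h1
    obtain ⟨j, hj⟩ := h1
    have hj' : QuotientGroup.mk' B (c ^ j) = QuotientGroup.mk' B (x * c * x⁻¹) := by
      rw [map_zpow, hj]
      simp only [map_mul, map_inv]
    have hb : (c ^ (j * m))⁻¹ * (x * c * x⁻¹) ^ m ∈ B := by
      apply QuotientGroup.eq.1
      have : QuotientGroup.mk' B (c ^ (j * m)) = QuotientGroup.mk' B ((x * c * x⁻¹) ^ m) := by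
        rw [map_pow, ← hj', map_zpow, map_zpow, zpow_mul, zpow_natCast]
      exact this
    set b' := (c ^ (j * m))⁻¹ * (x * c * x⁻¹) ^ m with hb'
    have he : (x * c * x⁻¹) ^ m = c ^ (j * m) * b' := by rw [hb']; group
    have hcomm : Commute (c ^ (j * m)) b' := by
      have h0 : Commute (c ^ m) b' := hm b' hb
      have := h0.zpow_left j
      rw [← zpow_natCast, ← zpow_mul] at this
      rw [mul_comm j (m : ℤ)]
      exact this
    have hb1 : b' ^ Nat.card B = 1 := by
      have := pow_card_eq_one' (G := B) (x := ⟨b', hb⟩)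
      exact congrArg Subtype.val this
    rw [Subgroup.mem_zpowers_iff]
    refine ⟨j, ?_⟩
    have h3 : x * c ^ M * x⁻¹ = (x * c * x⁻¹) ^ M := by rw [conj_pow]
    rw [h3, hM, pow_mul (x * c * x⁻¹) m, he, hcomm.mul_pow, hb1, mul_one, ← zpow_natCast,
      ← zpow_natCast, ← zpow_mul, ← zpow_mul]
    congr 1
    push_cast
    ring
  have h4 := hC (c ^ M) hinf (K'.comap (QuotientGroup.mk' B)) (Subgroup.pow_mem _ hcK _) hnorm
  have h5 : (K'.comap (QuotientGroup.mk' B)).map (QuotientGroup.mk' B) = K' :=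
    Subgroup.map_comap_eq_self_of_surjective (QuotientGroup.mk'_surjective B) K'
  rw [← h5, ← Subgroup.relIndex_comap]
  intro h0
  apply h4
  have hle : Subgroup.zpowers (c ^ M) ≤
      (Subgroup.zpowers (QuotientGroup.mk' B c)).comap (QuotientGroup.mk' B) := by
    rw [Subgroup.zpowers_le, Subgroup.mem_comap, map_pow]
    exact Subgroup.pow_mem _ (Subgroup.mem_zpowers _) _
  have h6 := Subgroup.relIndex_dvd_of_le_left (K'.comap (QuotientGroup.mk' B)) hle
  rw [h0] at h6
  exact Nat.eq_zero_of_zero_dvd h6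

theorem g2c : G2CStatement := by
  intro S _ N B _ hB hF hC
  exact ⟨finB_quot S N B hB hF, cyc_quot S B hB hC⟩

end H37

end MSG
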